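import Mathlib
import Pool.Agent.W2helper83.BT.Defs5
import Pool.Agent.W2helper92.BT2.Loc

/-!
# Project BT5, piece LOCHA: the places where `c` has a pole
-/

set_option autoImplicit false

namespace Pool.Agent.W2helper12.BT5

open Pool.Agent.W2helper83.BT Pool.Agent.W2helper92.BT2 Polynomial

section

variable {K Γ : Type} [Field K] [LinearOrderedCommGroupWithZero Γ] (W : Valuation K Γ)

lemma val_eval_big {H : K[X]} (hH : H.Monic) (hc : ∀ i, W (H.coeff i) ≤ 1) {x : K}
    (hx : 1 < W x) : W (H.eval x) = W x ^ H.natDegree := by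
  rw [eval_eq_sum_range, Finset.sum_range_succ, hH.coeff_natDegree, one_mul]
  have h1 : W (∑ i ∈ Finset.range H.natDegree, H.coeff i * x ^ i) < W (x ^ H.natDegree) := by
    refine W.map_sum_lt ?_ fun i hi => ?_
    · rw [map_pow]
      exact pow_ne_zero _ (zero_lt_one.trans hx).ne'
    · rw [map_mul, map_pow, map_pow]
      calc W (H.coeff i) * W x ^ i ≤ 1 * W x ^ i := mul_le_mul' (hc i) le_rfl
        _ = W x ^ i := one_mul _
        _ < W x ^ H.natDegree := pow_lt_pow_right₀ hx (Finset.mem_range.1 hi)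
  rw [W.map_add_eq_of_lt_right h1, map_pow]

lemma val_eval_le {H : K[X]} (hc : ∀ i, W (H.coeff i) ≤ 1) {x : K}
    (hx : W x ≤ 1) : W (H.eval x) ≤ 1 := by
  rw [eval_eq_sum_range]
  refine W.map_sum_le fun i _ => ?_
  rw [map_mul, map_pow]
  exact mul_le_one' (hc i) (pow_le_one₀ zero_le hx)

lemma taylor {H : K[X]} (hc : ∀ i, W (H.coeff i) ≤ 1) {x y : K} (hx : W x ≤ 1) (hy : W y ≤ 1) :
    ∃ G : K, W G ≤ 1 ∧
      H.eval x - H.eval y = (x - y) * (H.derivative.eval y + (x - y) * G) := by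
  have hp : (↑H.coeffs : Set K) ⊆ W.integer := by
    intro a ha
    obtain ⟨n, hn, rfl⟩ := Polynomial.mem_coeffs_iff.1 ha
    exact hc n
  obtain ⟨H₀, hmap⟩ : ∃ H₀ : (W.integer)[X], H₀.map W.integer.subtype = H :=
    ⟨_, Polynomial.map_toSubring H W.integer hp⟩
  obtain ⟨k, hk⟩ := H₀.binomExpansion (⟨y, hy⟩ : W.integer) (⟨x, hx⟩ - ⟨y, hy⟩)
  refine ⟨k, k.2, ?_⟩
  rw [add_sub_cancel] at hk
  have e1 : W.integer.subtype (H₀.eval ⟨x, hx⟩) = H.eval x := by
    rw [← eval_map_apply, hmap]; rfl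
  have e2 : W.integer.subtype (H₀.eval ⟨y, hy⟩) = H.eval y := by
    rw [← eval_map_apply, hmap]; rfl
  have e3 : W.integer.subtype (H₀.derivative.eval ⟨y, hy⟩) = H.derivative.eval y := by
    rw [← eval_map_apply, ← derivative_map, hmap]; rfl
  have h1 := congrArg W.integer.subtype hk
  rw [map_add, map_add, map_mul, map_mul, map_pow, map_sub, e1, e2, e3] at h1
  change H.eval x = H.eval y + H.derivative.eval y * (x - y) + (k : K) * (x - y) ^ 2 at h1
  rw [h1]
  ring

lemma per_le {d : ℕ} (hd : 1 ≤ d) {c : K} {H : K[X]} (hH : H.Monic)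
    (hcf : ∀ i, W (H.coeff i) ≤ 1) (hc : 1 < W c) (hdeg : 1 ≤ H.natDegree) {z : K} {N : ℕ}
    (hN : 0 < N) (hz : (fH d c H)^[N] z = z) : W z ≤ 1 := by
  by_contra hlt
  rw [not_le] at hlt
  have hst : ∀ t : K, 1 < W t → W t < W (fH d c H t) := by
    intro t ht
    have ht' : 1 < W (t ^ d) := by
      rw [map_pow]
      exact one_lt_pow₀ ht (by omega)
    rw [fH, map_mul, val_eval_big W hH hcf ht', map_pow, ← pow_mul]
    have h1 : W t ≤ W t ^ (d * H.natDegree) := by
      calc W t = W t ^ 1 := (pow_one _).symm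
        _ ≤ W t ^ (d * H.natDegree) :=
          pow_le_pow_right₀ ht.le (Nat.mul_pos (by omega) (by omega))
    have h0 : 0 < W t ^ (d * H.natDegree) := pow_pos (zero_lt_one.trans ht) _
    calc W t ≤ W t ^ (d * H.natDegree) := h1
      _ = 1 * W t ^ (d * H.natDegree) := (one_mul _).symm
      _ < W c * W t ^ (d * H.natDegree) := by gcongr
  have hinc : ∀ k : ℕ, W z < W ((fH d c H)^[k + 1] z) := by
    intro k
    induction k with
    | zero => exact hst z hlt
    | succ k ih =>
      rw [Function.iterate_succ_apply' _ (k + 1)]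
      exact ih.trans (hst _ (hlt.trans ih))
  have := hinc (N - 1)
  rw [Nat.sub_add_cancel hN, hz] at this
  exact absurd this (lt_irrefl _)

end

section

variable {L Γ : Type} [Field L] [LinearOrderedCommGroupWithZero Γ] {w : Valuation L Γ}

/-- the values of the factors are powers of `T` -/
lemma core_seq {d N : ℕ} (hN : 0 < N) {u v : ℕ → L} (hu : ∀ k, u (k + N) = u k)
    (hv : ∀ k, v (k + N) = v k) (huv : ∀ k, u k ≠ v k) {T : Γ} (hT1 : T < 1)
    (hst : ∀ k, (∀ η : L, η ^ d = 1 → w (u k - η * v k) = 1) ∨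
      ∃ η₀ : L, w (u k - η₀ * v k) = w (u (k + 1) - v (k + 1)) * T ∧
        ∀ η : L, η ^ d = 1 → η ≠ η₀ → w (u k - η * v k) = 1)
    (η : L) (hη : η ^ d = 1) : ∃ j : ℕ, w (u 0 - η * v 0) = T ^ j := by
  have hrec : ∀ k, w (u k - v k) = 1 ∨ w (u k - v k) = w (u (k + 1) - v (k + 1)) * T := by
    intro k
    rcases hst k with h | ⟨η₀, h3, h4⟩
    · left
      have := h 1 (one_pow d)
      rwa [one_mul] at this
    · by_cases h : η₀ = 1
      · right
        rw [← h3, h, one_mul]
      · left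
        have := h4 1 (one_pow d) (fun h' => h h'.symm)
        rwa [one_mul] at this
  have hpow : ∀ k, ∃ j : ℕ, w (u k - v k) = T ^ j := by
    intro k
    by_contra hcon
    have hind : ∀ n, w (u k - v k) = w (u (k + n) - v (k + n)) * T ^ n ∧
        ¬ ∃ j : ℕ, w (u (k + n) - v (k + n)) = T ^ j := by
      intro n
      induction n with
      | zero => exact ⟨by simp, hcon⟩
      | succ n ih =>
        obtain ⟨i1, i2⟩ := ih
        rcases hrec (k + n) with h | h
        · exact absurd ⟨0, by rw [h, pow_zero]⟩ i2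
        · refine ⟨?_, ?_⟩
          · rw [i1, h, pow_succ', mul_assoc]
            rfl
          · rintro ⟨j, hj⟩
            apply i2
            refine ⟨j + 1, ?_⟩
            have hj' : w (u (k + n + 1) - v (k + n + 1)) = T ^ j := hj
            rw [h, hj', pow_succ]
    obtain ⟨i1, -⟩ := hind N
    rw [hu, hv] at i1
    have hne : w (u k - v k) ≠ 0 := (w.ne_zero_iff).2 (sub_ne_zero.2 (huv k))
    have h5 : T ^ N = 1 := by
      have h6 : w (u k - v k) * T ^ N = w (u k - v k) * 1 := by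
        rw [← i1, mul_one]
      exact mul_left_cancel₀ hne h6
    exact absurd h5 (pow_lt_one₀ zero_le hT1 hN.ne').ne
  rcases hst 0 with h | ⟨η₀, h3, h4⟩
  · exact ⟨0, by rw [h η hη, pow_zero]⟩
  · by_cases h : η = η₀
    · obtain ⟨j, hj⟩ := hpow (0 + 1)
      exact ⟨j + 1, by rw [h, h3, hj, pow_succ]⟩
    · exact ⟨0, by rw [h4 η hη h, pow_zero]⟩

end

theorem locha : LOCHA := by
  intro K L Γ _ _ _ _ w d c H x y ζ₁ ζ₂ hd hwd hζ hH hcf hc hsep hx hy hxy h1 h1' h2 h2' hne1 hne2
  obtain ⟨z, hz⟩ := hζ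
  have hd0 : 0 < d := by omega
  set W : Valuation K Γ := w.comap (algebraMap K L) with hW
  have hWa : ∀ a : K, w (algebraMap K L a) = W a := fun _ => rfl
  simp only [hWa] at hcf hc hsep
  have hc0 : W c ≠ 0 := (zero_lt_one.trans hc).ne'
  -- the degree is positive
  have hdeg : 1 ≤ H.natDegree := by
    by_contra hcon
    have h0 : H.natDegree = 0 := by omega
    have hH1 : H = 1 := hH.natDegree_eq_zero.1 h0
    have hconst : ∀ t : K, fH d c H t = c := by
      intro t
      rw [fH, hH1, eval_one, mul_one]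
    have hper : ∀ t : K, PerH d c H t → t = c := by
      rintro t ⟨n, hn, ht⟩
      obtain ⟨m, rfl⟩ := Nat.exists_eq_succ_of_ne_zero hn.ne'
      rw [Function.iterate_succ_apply', hconst] at ht
      exact ht.symm
    exact hxy ((hper x hx).trans (hper y hy).symm)
  obtain ⟨n1, hn1, hx⟩ := hx
  obtain ⟨n2, hn2, hy⟩ := hy
  have hx' := it_mul hx n2
  have hy' := it_mul hy n1
  rw [Nat.mul_comm n2 n1] at hy'
  set N := n1 * n2 with hNdef
  have hN : 0 < N := Nat.mul_pos hn1 hn2
  -- the values of the periodic points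
  have hval : ∀ t : K, (fH d c H)^[N] t = t → W t = 1 ∧ W (H.derivative.eval (t ^ d)) = 1 := by
    intro t ht
    have ht1 := per_le W hd0 hH hcf hc hdeg hN ht
    have ht2 : (fH d c H)^[N] (fH d c H t) = fH d c H t := it_per ht 1
    have ht3 := per_le W hd0 hH hcf hc hdeg hN ht2
    have htd : W (t ^ d) ≤ 1 := by
      rw [map_pow]; exact pow_le_one₀ zero_le ht1
    have ht4 : W (H.eval (t ^ d)) < 1 := by
      by_contra hcon
      rw [not_lt] at hcon
      rw [fH, map_mul] at ht3
      have h3 : W c * 1 ≤ W c * W (H.eval (t ^ d)) := mul_le_mul' le_rfl hcon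
      rw [mul_one] at h3
      exact absurd hc (not_lt.2 (h3.trans ht3))
    obtain ⟨h3, h4⟩ := hsep _ htd ht4
    rw [map_pow] at h3
    exact ⟨one_of_pow hd0.ne' h3, h4⟩
  -- the orbits
  set u : ℕ → K := fun k => (fH d c H)^[k] x with hu
  set v : ℕ → K := fun k => (fH d c H)^[k] y with hv
  have hus : ∀ k, u (k + 1) = fH d c H (u k) := fun k => Function.iterate_succ_apply' _ _ _
  have hvs : ∀ k, v (k + 1) = fH d c H (v k) := fun k => Function.iterate_succ_apply' _ _ _
  have hu1 := fun k => hval (u k) (it_per hx' k)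
  have hv1 := fun k => hval (v k) (it_per hy' k)
  have huN : ∀ k, u (k + N) = u k := fun k => by
    simp only [hu]
    rw [Function.iterate_add_apply, hx']
  have hvN : ∀ k, v (k + N) = v k := fun k => by
    simp only [hv]
    rw [Function.iterate_add_apply, hy']
  have huv : ∀ k, u k ≠ v k := fun k => it_ne hN hx' hy' hxy k
  have hinj : Function.Injective (algebraMap K L) := (algebraMap K L).injective
  have hT1 : (W c)⁻¹ < 1 := inv_lt_one_of_one_lt₀ hc
  have hmem : ∀ η : L, η ∈ nthRootsFinset d (1 : L) ↔ η ^ d = 1 := fun η =>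
    mem_nthRootsFinset hd0 1
  have hst : ∀ k, (∀ η : L, η ^ d = 1 → w (algebraMap K L (u k) - η * algebraMap K L (v k)) = 1) ∨
      ∃ η₀ : L, w (algebraMap K L (u k) - η₀ * algebraMap K L (v k)) =
        w (algebraMap K L (u (k + 1)) - algebraMap K L (v (k + 1))) * (W c)⁻¹ ∧
        ∀ η : L, η ^ d = 1 → η ≠ η₀ → w (algebraMap K L (u k) - η * algebraMap K L (v k)) = 1 := by
    intro k
    have hle : ∀ η : L, η ^ d = 1 → w (algebraMap K L (u k) - η * algebraMap K L (v k)) ≤ 1 := by
      intro η hη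
      refine (w.map_sub _ _).trans ?_
      rw [map_mul, val_root w hd0.ne' hη, hWa, hWa, (hu1 k).1, (hv1 k).1, one_mul, max_self]
    have hX : W (u k ^ d) ≤ 1 := by rw [map_pow, (hu1 k).1, one_pow]
    have hY : W (v k ^ d) ≤ 1 := by rw [map_pow, (hv1 k).1, one_pow]
    have hXY : W (u k ^ d - v k ^ d) ≤ 1 := (W.map_sub _ _).trans (max_le hX hY)
    have hcast : w (algebraMap K L (u k) ^ d - algebraMap K L (v k) ^ d) =
        W (u k ^ d - v k ^ d) := by
      rw [← map_pow, ← map_pow, ← map_sub, hWa]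
    rcases eq_or_lt_of_le hXY with h | h
    · left
      intro η hη
      have h3 := val_prod w hd0 hz (algebraMap K L (u k)) (algebraMap K L (v k))
      rw [hcast, h] at h3
      have h4 := (Finset.prod_eq_one_iff_of_le_one' (fun η hη => hle η ((hmem η).1 hη))).1 h3.symm
      exact h4 η ((hmem η).2 hη)
    · right
      obtain ⟨G, hG, hG'⟩ := taylor W hcf hX hY
      have h3 : W (H.derivative.eval (v k ^ d) + (u k ^ d - v k ^ d) * G) = 1 := by
        rw [W.map_add_eq_of_lt_left, (hv1 k).2]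
        rw [(hv1 k).2, map_mul]
        calc W (u k ^ d - v k ^ d) * W G ≤ W (u k ^ d - v k ^ d) * 1 := mul_le_mul' le_rfl hG
          _ = W (u k ^ d - v k ^ d) := mul_one _
          _ < 1 := h
      have h4 : W (u (k + 1) - v (k + 1)) = W c * W (u k ^ d - v k ^ d) := by
        rw [hus, hvs, fH, fH, ← mul_sub, hG', map_mul, map_mul, h3, mul_one]
      have h5 : W (u (k + 1) - v (k + 1)) ≤ 1 := by
        refine (W.map_sub _ _).trans ?_
        rw [(hu1 (k + 1)).1, (hv1 (k + 1)).1, max_self]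
      have h6 : w (algebraMap K L (u (k + 1)) - algebraMap K L (v (k + 1))) =
          W (u (k + 1) - v (k + 1)) := by
        rw [← map_sub, hWa]
      rw [h6]
      obtain ⟨η₀, -, h7, h8⟩ := step (w := w) hd hwd hz (x := algebraMap K L (u k))
        (y := algebraMap K L (v k)) (W := 1) (T := (W c)⁻¹) (b := W (u (k + 1) - v (k + 1)))
        one_ne_zero (by rw [hWa, (hu1 k).1]) (by rw [hWa, (hv1 k).1]) hT1 h5 (by
          rw [hcast, one_pow, mul_one, h4, mul_right_comm, mul_inv_cancel₀ hc0, one_mul])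
      exact ⟨η₀, h7, fun η hη => h8 η ((hmem η).2 hη)⟩
  have hkey := core_seq (w := w) (d := d) hN (u := fun k => algebraMap K L (u k))
    (v := fun k => algebraMap K L (v k)) (fun k => by simp only [huN]) (fun k => by simp only [hvN])
    (fun k h => huv k (hinj h)) hT1 hst
  obtain ⟨j1, hj1⟩ := hkey ζ₁ h1
  obtain ⟨j2, hj2⟩ := hkey ζ₂ h2
  have hj1' : w (algebraMap K L x - ζ₁ * algebraMap K L y) = (W c)⁻¹ ^ j1 := hj1
  have hj2' : w (algebraMap K L x - ζ₂ * algebraMap K L y) = (W c)⁻¹ ^ j2 := hj2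
  refine ⟨(j2 : ℤ) - j1, ?_⟩
  rw [map_div₀, hj1', hj2', hWa, zpow_sub₀ hc0, zpow_natCast, zpow_natCast, inv_pow, inv_pow,
    inv_div_inv]

end Pool.Agent.W2helper12.BT5
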